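import Pool.Agent.H83.UE.Targets2
import Pool.Agent.H65.VG.SMO

/-!
# uda_modules, row NES: images of null sets under holomorphic maps are null for the Hausdorff measure
-/

set_option autoImplicit false

open Polynomial MeasureTheory Filter Topology Set
open scoped ENNReal NNReal

namespace Pool.Agent.H26.UDA

open Pool.Agent.H83.UE

/-- A Lebesgue null set of `ℂ^m` is null for the Hausdorff measure of dimension `2m`. -/
lemma hausdorff_null (m : ℕ) (Z : Set (Fin m → ℂ)) (hZ : volume Z = 0) :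
    Measure.hausdorffMeasure (2 * m : ℝ) Z = 0 := by
  have hfin : (Module.finrank ℝ (Fin m → ℂ) : ℝ) = 2 * m := by
    have : Module.finrank ℝ (Fin m → ℂ) = m * 2 := by
      rw [Module.finrank_pi_fintype]
      simp [Complex.finrank_real_complex]
    rw [this]
    push_cast
    ring
  rw [← hfin]
  have h := Measure.isAddLeftInvariant_eq_smul
    (Measure.hausdorffMeasure (Module.finrank ℝ (Fin m → ℂ) : ℝ) : Measure (Fin m → ℂ))
    (volume : Measure (Fin m → ℂ))
  rw [h, Measure.smul_apply, hZ, smul_zero]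

theorem pf_NES : T_NES := by
  intro k m c r Z ψ hZ hψ hvol
  have hnull := hausdorff_null m Z hvol
  have hcd : ContDiffOn ℂ ((1 : ℕ) : WithTop ℕ∞) ψ (Metric.ball c r) :=
    Pool.Agent.H65.VG.contDiffOn_nat Metric.isOpen_ball 1 ψ hψ
  have hloc : ∀ x ∈ Z, ∃ t ∈ 𝓝[Z] x, ∃ K : ℝ≥0, LipschitzOnWith K ψ t := by
    intro x hx
    have hxb : Metric.ball c r ∈ 𝓝 x := Metric.isOpen_ball.mem_nhds (hZ hx)
    have h1 : ContDiffAt ℂ 1 ψ x := by
      simpa using hcd.contDiffAt hxb
    obtain ⟨K, t, ht, hL⟩ := h1.exists_lipschitzOnWith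
    exact ⟨t, mem_nhdsWithin_of_mem_nhds ht, K, hL⟩
  choose! f hf K hK using hloc
  obtain ⟨s, hsZ, hsc, hcov⟩ := TopologicalSpace.countable_cover_nhdsWithin hf
  have hsub : ψ '' Z ⊆ ⋃ x ∈ s, ψ '' (f x ∩ Z) := by
    rintro _ ⟨z, hz, rfl⟩
    have hz' := hcov hz
    simp only [mem_iUnion] at hz' ⊢
    obtain ⟨x, hx, hzx⟩ := hz'
    exact ⟨x, hx, z, ⟨hzx, hz⟩, rfl⟩
  refine measure_mono_null hsub ?_
  rw [measure_biUnion_null_iff hsc]
  intro x hx
  have hL : LipschitzOnWith (K x) ψ (f x ∩ Z) := (hK x (hsZ hx)).mono inter_subset_left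
  have h2 := hL.hausdorffMeasure_image_le (d := (2 * m : ℝ)) (by positivity)
  have h3 : Measure.hausdorffMeasure (2 * m : ℝ) (f x ∩ Z) = 0 :=
    measure_mono_null inter_subset_right hnull
  rw [h3, mul_zero] at h2
  exact le_antisymm h2 bot_le

end Pool.Agent.H26.UDA
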